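import Mathlib

/-!
# Skew pair families for the Hamming distance

`lengths t X` is the set of all lengths of skew `t`-families over the alphabet `X`.  We show that
its greatest element is `2 ^ (t + 1)`.

Proof of the upper bound: in characteristic two the algebra `F[e_1, …, e_s] / (e_i ^ 2)` has
dimension `2 ^ s` and all linear forms in it have square zero.  To a string `a` we attach the
product of the factors `1 + x(a_k) v_k` with generic linear forms `v_k`.  The top coefficient of
the product of the elements attached to `a` and `b` is the top coefficient of the product of the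
`1 + (x(a_k) + x(b_k)) v_k`, which vanishes if `dist(a, b) < s` and does not vanish otherwise.
-/

namespace Pool.Agent.Results.MP_41e757_co.SkewHamming

open MvPolynomial

/-- Hamming distance of two strings. -/
noncomputable def dist {X : Type*} {n : ℕ} (p q : Fin n → X) : ℕ := {k | p k ≠ q k}.ncard

/-- `a, b` is a skew `t`-family of length `m` in `X ^ n`. -/
def IsSkewFamily {X : Type*} (t n m : ℕ) (a b : Fin m → (Fin n → X)) : Prop :=
  t + 1 ≤ n ∧ (∀ i, t + 1 ≤ dist (a i) (b i)) ∧ ∀ i j, i < j → dist (a i) (b j) ≤ t

/-- The lengths of skew `t`-families over `X`. -/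
def lengths (t : ℕ) (X : Type*) : Set ℕ :=
  {m | ∃ (n : ℕ) (a b : Fin m → (Fin n → X)), IsSkewFamily t n m a b}

section Upper

variable {X : Type*} {n s : ℕ}

/-- coefficients -/
abbrev K (X : Type*) := MvPolynomial X (ZMod 2)

/-- coefficients with the generic coordinates of the linear forms -/
abbrev R (X : Type*) (n s : ℕ) := MvPolynomial (Fin n × Fin s) (K X)

/-- the element attached to a letter -/
noncomputable def xx (n s : ℕ) (α : X) : R X n s := C (MvPolynomial.X α)

/-- the generic linear forms -/
noncomputable def vv (X : Type*) (n s : ℕ) (k : Fin n) : MvPolynomial (Fin s) (R X n s) :=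
  ∑ i, C (MvPolynomial.X (k, i)) * MvPolynomial.X i

/-- the element attached to a string -/
noncomputable def EE (s : ℕ) (a : Fin n → X) : MvPolynomial (Fin s) (R X n s) :=
  ∏ k, (1 + C (xx n s (a k)) * vv X n s k)

/-- the exponent of the squarefree monomial in all variables -/
noncomputable def top (s : ℕ) : Fin s →₀ ℕ := Finsupp.equivFunOnFinite.symm fun _ => 1

lemma top_apply (i : Fin s) : top s i = 1 := rfl

instance : CharP (K X) 2 := by infer_instance
instance : CharP (R X n s) 2 := by infer_instance
instance : IsDomain (R X n s) := by infer_instance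

lemma two_eq_zero' : (2 : MvPolynomial (Fin s) (R X n s)) = 0 := by
  have : CharP (MvPolynomial (Fin s) (R X n s)) 2 := by infer_instance
  exact_mod_cast CharP.cast_eq_zero (MvPolynomial (Fin s) (R X n s)) 2

/-- the ideal of squares of variables -/
noncomputable def JJ (X : Type*) (n s : ℕ) : Ideal (MvPolynomial (Fin s) (R X n s)) :=
  Ideal.span (Set.range fun i : Fin s => (MvPolynomial.X i : MvPolynomial (Fin s) (R X n s)) ^ 2)

lemma coeff_JJ {p : MvPolynomial (Fin s) (R X n s)} (hp : p ∈ JJ X n s) :
    coeff (top s) p = 0 := by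
  unfold JJ at hp
  rw [Ideal.mem_span_range_iff_exists_fun] at hp
  obtain ⟨c, rfl⟩ := hp
  rw [coeff_sum]
  refine Finset.sum_eq_zero fun i _ => ?_
  rw [X_pow_eq_monomial, coeff_mul_monomial', if_neg]
  intro h
  have := h i
  rw [Finsupp.single_eq_same, top_apply] at this
  omega

lemma vv_sq (k : Fin n) : vv X n s k ^ 2 ∈ JJ X n s := by
  unfold vv
  have : CharP (MvPolynomial (Fin s) (R X n s)) 2 := by infer_instance
  rw [sum_pow_char 2]
  refine Ideal.sum_mem _ fun i _ => ?_
  rw [mul_pow]
  exact Ideal.mul_mem_left _ _ (Ideal.subset_span ⟨i, rfl⟩)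

lemma prod_sub_mem {A : Type*} [CommRing A] (J : Ideal A) {ι : Type*} (S : Finset ι)
    (f g : ι → A) (h : ∀ k ∈ S, f k - g k ∈ J) : ∏ k ∈ S, f k - ∏ k ∈ S, g k ∈ J := by
  rw [← Ideal.Quotient.eq, map_prod, map_prod]
  exact Finset.prod_congr rfl fun k hk => Ideal.Quotient.eq.2 (h k hk)

lemma EE_mul (a b : Fin n → X) : coeff (top s) (EE s a * EE s b) =
    coeff (top s) (∏ k, (1 + C (xx n s (a k) + xx n s (b k)) * vv X n s k)) := by
  rw [← sub_eq_zero, ← coeff_sub]
  apply coeff_JJ
  unfold EE
  rw [← Finset.prod_mul_distrib]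
  refine prod_sub_mem (A := MvPolynomial (Fin s) (R X n s)) (JJ X n s) _ _ _ fun k _ => ?_
  have : (1 + C (xx n s (a k)) * vv X n s k) * (1 + C (xx n s (b k)) * vv X n s k) -
      (1 + C (xx n s (a k) + xx n s (b k)) * vv X n s k) =
      (C (xx n s (a k)) * C (xx n s (b k))) * vv X n s k ^ 2 := by
    rw [C_add]
    ring
  rw [this]
  exact Ideal.mul_mem_left _ _ (vv_sq k)

/-- the pairing -/
noncomputable def Phi (s : ℕ) (a b : Fin n → X) : R X n s := coeff (top s) (EE s a * EE s b)

lemma xx_add_self (α : X) : xx n s α + xx n s α = 0 := CharTwo.add_self_eq_zero _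

lemma Phi_eq_zero {t : ℕ} (a b : Fin n → X) (h : dist a b ≤ t) : Phi (t + 1) a b = 0 := by
  classical
  unfold Phi
  rw [EE_mul]
  apply coeff_eq_zero_of_totalDegree_lt
  have h1 : (∏ k, (1 + C (xx n (t + 1) (a k) + xx n (t + 1) (b k)) * vv X n (t + 1) k)) =
      ∏ k ∈ Finset.univ.filter (fun k => a k ≠ b k),
        (1 + C (xx n (t + 1) (a k) + xx n (t + 1) (b k)) * vv X n (t + 1) k) := by
    symm
    apply Finset.prod_subset (Finset.filter_subset _ _)
    intro k _ hk
    rw [Finset.mem_filter, not_and, not_not] at hk
    rw [hk (Finset.mem_univ _), xx_add_self, C_0, zero_mul, add_zero]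
  rw [h1]
  have h2 : ∀ k, (1 + C (xx n (t + 1) (a k) + xx n (t + 1) (b k)) *
      vv X n (t + 1) k).totalDegree ≤ 1 := by
    intro k
    refine (totalDegree_add _ _).trans (max_le ?_ ?_)
    · rw [totalDegree_one]
      omega
    · refine (totalDegree_mul _ _).trans ?_
      rw [totalDegree_C, zero_add]
      unfold vv
      refine (totalDegree_finset_sum _ _).trans ?_
      refine Finset.sup_le fun i _ => ?_
      refine (totalDegree_mul _ _).trans ?_
      rw [totalDegree_C, zero_add]
      exact (totalDegree_X i).le
  have h3 : ∑ i ∈ (top (t + 1)).support, top (t + 1) i = t + 1 := by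
    have : (top (t + 1)).support = Finset.univ := by
      ext i
      simp [Finsupp.mem_support_iff, top_apply]
    rw [this]
    simp [top_apply]
  have h4 : (Finset.univ.filter fun k => a k ≠ b k).card ≤ t := by
    have : dist a b = (Finset.univ.filter fun k => a k ≠ b k).card := by
      unfold dist
      rw [← Set.ncard_coe_finset]
      congr 1
      ext k
      simp
    omega
  rw [h3]
  refine lt_of_le_of_lt (totalDegree_finset_prod _ _) ?_
  refine lt_of_le_of_lt (Finset.sum_le_sum fun k _ => h2 k) ?_
  rw [Finset.sum_const, smul_eq_mul, mul_one]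
  omega

lemma coeff_top_prod {A : Type*} [CommRing A] (c : Fin s → A) :
    coeff (top s) (∏ i, (1 + C (c i) * (MvPolynomial.X i : MvPolynomial (Fin s) A))) =
      ∏ i, c i := by
  classical
  have h1 : ∀ S : Finset (Fin s), (∏ i ∈ S, (C (c i) * (MvPolynomial.X i : MvPolynomial (Fin s) A)))
      = monomial (∑ i ∈ S, Finsupp.single i 1) (∏ i ∈ S, c i) := by
    intro S
    induction S using Finset.induction_on with
    | empty => simp
    | insert i S hi ih =>
      rw [Finset.prod_insert hi, ih, Finset.sum_insert hi, Finset.prod_insert hi,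
        C_mul_X_eq_monomial, monomial_mul]
  rw [Finset.prod_one_add, coeff_sum, Finset.sum_eq_single Finset.univ]
  · rw [h1, coeff_monomial, if_pos]
    ext i
    rw [Finsupp.finset_sum_apply, top_apply]
    simp [Finsupp.single_apply]
  · intro S _ hS
    rw [h1, coeff_monomial, if_neg]
    intro he
    apply hS
    rw [Finset.eq_univ_iff_forall]
    intro i
    by_contra hi
    have := DFunLike.congr_fun he i
    rw [Finsupp.finset_sum_apply, top_apply] at this
    simp [Finsupp.single_apply, hi] at this
  · intro h
    exact absurd (Finset.mem_powerset.2 (Finset.subset_univ _)) h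

lemma Phi_ne_zero (a b : Fin n → X) (h : s ≤ dist a b) : Phi s a b ≠ 0 := by
  classical
  have hcard : dist a b = (Finset.univ.filter fun k => a k ≠ b k).card := by
    unfold dist
    rw [← Set.ncard_coe_finset]
    congr 1
    ext k
    simp
  rw [hcard] at h
  obtain ⟨D, hD, hDc⟩ := Finset.exists_subset_card_eq h
  let κ : Fin s ↪ Fin n := (D.orderEmbOfFin hDc).toEmbedding
  have hκ : ∀ i, a (κ i) ≠ b (κ i) := by
    intro i
    have h1 : κ i ∈ D := Finset.orderEmbOfFin_mem _ _ _
    exact (Finset.mem_filter.1 (hD h1)).2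
  intro hzero
  -- evaluation of the generic coordinates
  let ψ : R X n s →+* K X :=
    (MvPolynomial.eval (fun p : Fin n × Fin s => if p.1 = κ p.2 then (1 : K X) else 0))
  have h1 : ψ (Phi s a b) = ∏ i, (MvPolynomial.X (a (κ i)) + MvPolynomial.X (b (κ i)) : K X) := by
    unfold Phi
    rw [EE_mul, ← coeff_map, map_prod, ← coeff_top_prod
      (fun i => (MvPolynomial.X (a (κ i)) + MvPolynomial.X (b (κ i)) : K X))]
    congr 1
    have h2 : ∀ k, MvPolynomial.map ψ (1 + C (xx n s (a k) + xx n s (b k)) * vv X n s k) =
        1 + C (MvPolynomial.X (a k) + MvPolynomial.X (b k) : K X) *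
          ∑ i, (if k = κ i then (MvPolynomial.X i : MvPolynomial (Fin s) (K X)) else 0) := by
      intro k
      rw [map_add, map_one, map_mul, map_C]
      congr 2
      · congr 1
        rw [map_add]
        unfold xx
        change MvPolynomial.eval _ (C _) + MvPolynomial.eval _ (C _) = _
        rw [eval_C, eval_C]
      · unfold vv
        rw [map_sum]
        refine Finset.sum_congr rfl fun i _ => ?_
        rw [map_mul, map_C, map_X]
        change C (MvPolynomial.eval _ (MvPolynomial.X (k, i))) * _ = _
        rw [eval_X]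
        change C (if k = κ i then 1 else 0) * _ = _
        split_ifs with hk
        · rw [C_1, one_mul]
        · rw [C_0, zero_mul]
    rw [Finset.prod_congr rfl fun k _ => h2 k]
    have h3 : ∀ i, (∑ j, (if κ i = κ j then (MvPolynomial.X j : MvPolynomial (Fin s) (K X))
        else 0)) = MvPolynomial.X i := by
      intro i
      rw [Finset.sum_eq_single i]
      · rw [if_pos rfl]
      · intro j _ hj
        rw [if_neg]
        intro he
        exact hj (κ.injective he).symm
      · intro h
        exact absurd (Finset.mem_univ _) h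
    have h4 : ∏ i, (1 + C (MvPolynomial.X (a (κ i)) + MvPolynomial.X (b (κ i)) : K X) *
        (MvPolynomial.X i : MvPolynomial (Fin s) (K X))) =
        ∏ k ∈ Finset.univ.map κ, (1 + C (MvPolynomial.X (a k) + MvPolynomial.X (b k) : K X) *
          ∑ i, (if k = κ i then (MvPolynomial.X i : MvPolynomial (Fin s) (K X)) else 0)) := by
      rw [Finset.prod_map]
      refine Finset.prod_congr rfl fun i _ => ?_
      rw [h3]
    rw [h4]
    symm
    apply Finset.prod_subset (Finset.subset_univ _)
    intro k _ hk
    rw [Finset.sum_eq_zero, mul_zero, add_zero]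
    intro i _
    rw [if_neg]
    intro he
    exact hk (Finset.mem_map.2 ⟨i, Finset.mem_univ _, he.symm⟩)
  rw [hzero, map_zero] at h1
  have h2 := Finset.prod_eq_zero_iff.1 h1.symm
  obtain ⟨i, -, hi⟩ := h2
  have h3 : (MvPolynomial.X (a (κ i)) : K X) = MvPolynomial.X (b (κ i)) :=
    CharTwo.add_eq_zero.1 hi
  exact hκ i (MvPolynomial.X_injective h3)

lemma card_antidiagonal_top (s : ℕ) : (Finset.HasAntidiagonal.antidiagonal (top s)).card ≤ 2 ^ s := by
  classical
  have h1 : (Finset.HasAntidiagonal.antidiagonal (top s)).card ≤ (Finset.univ : Finset (Finset (Fin s))).card := by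
    refine Finset.card_le_card_of_injOn (fun p => p.1.support) (fun _ _ => by simp) ?_
    intro p hp q hq he
    rw [Finset.mem_coe, Finset.HasAntidiagonal.mem_antidiagonal] at hp hq
    have key : ∀ r : (Fin s →₀ ℕ) × (Fin s →₀ ℕ), r.1 + r.2 = top s →
        ∀ i, r.1 i = if i ∈ r.1.support then 1 else 0 := by
      intro r hr i
      have h2 := DFunLike.congr_fun hr i
      rw [Finsupp.add_apply, top_apply] at h2
      split_ifs with h3
      · rw [Finsupp.mem_support_iff] at h3
        omega
      · rw [Finsupp.notMem_support_iff] at h3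
        exact h3
    have h3 : p.1 = q.1 := by
      ext i
      rw [key p hp i, key q hq i]
      change p.1.support = q.1.support at he
      rw [he]
    have h4 : p.2 = q.2 := by
      rw [h3] at hp
      exact add_left_cancel (hp.trans hq.symm)
    exact Prod.ext h3 h4
  rw [Finset.card_univ, Fintype.card_finset, Fintype.card_fin] at h1
  exact h1

theorem upper {t m : ℕ} {a b : Fin m → (Fin n → X)} (h : IsSkewFamily t n m a b) :
    m ≤ 2 ^ (t + 1) := by
  classical
  obtain ⟨-, hd, hu⟩ := h
  let N : Matrix (Fin m) (Fin m) (R X n (t + 1)) := fun i j => Phi (t + 1) (a i) (b j)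
  let A : Matrix (Fin m) (Finset.HasAntidiagonal.antidiagonal (top (t + 1))) (R X n (t + 1)) :=
    fun i p => coeff p.1.1 (EE (t + 1) (a i))
  let B : Matrix (Finset.HasAntidiagonal.antidiagonal (top (t + 1))) (Fin m) (R X n (t + 1)) :=
    fun p j => coeff p.1.2 (EE (t + 1) (b j))
  have hN : N = A * B := by
    ext1 i j
    rw [Matrix.mul_apply]
    change coeff (top (t + 1)) (EE (t + 1) (a i) * EE (t + 1) (b j)) = _
    rw [coeff_mul, ← Finset.sum_coe_sort]
  have hdet : N.det ≠ 0 := by
    rw [Matrix.det_of_lowerTriangular N (fun i j hij => Phi_eq_zero _ _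
      (hu i j (OrderDual.toDual_lt_toDual.1 hij)))]
    exact Finset.prod_ne_zero_iff.2 fun i _ => Phi_ne_zero _ _ (hd i)
  let φ : R X n (t + 1) →+* FractionRing (R X n (t + 1)) := algebraMap _ _
  have hdet' : (N.map φ).det ≠ 0 := by
    have h1 : (N.map φ).det = φ N.det := (RingHom.map_det φ N).symm
    rw [h1]
    intro h2
    exact hdet ((IsFractionRing.injective (R X n (t + 1)) _) (h2.trans (map_zero _).symm))
  have hr1 : (N.map φ).rank = m := by
    have := Matrix.rank_of_isUnit (N.map φ)
      ((Matrix.isUnit_iff_isUnit_det _).2 (isUnit_iff_ne_zero.2 hdet'))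
    rwa [Fintype.card_fin] at this
  have hr2 : (N.map φ).rank ≤ Fintype.card (Finset.HasAntidiagonal.antidiagonal (top (t + 1))) := by
    rw [hN, Matrix.map_mul]
    exact (Matrix.rank_mul_le_left _ _).trans (Matrix.rank_le_card_width _)
  rw [hr1, Fintype.card_coe] at hr2
  exact hr2.trans (card_antidiagonal_top _)

end Upper

theorem lower (t : ℕ) (X : Type*) [Nontrivial X] : 2 ^ (t + 1) ∈ lengths t X := by
  classical
  obtain ⟨α, β, hαβ⟩ := exists_pair_ne X
  let e : Fin (2 ^ (t + 1)) ≃ (Fin (t + 1) → Bool) :=
    (Fintype.equivFinOfCardEq (by simp)).symm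
  refine ⟨t + 1, fun i k => if e i k then α else β, fun i k => if e i k then β else α, le_rfl,
    ?_, ?_⟩
  · intro i
    unfold dist
    have : {k | (if e i k then α else β) ≠ (if e i k then β else α)} = Set.univ := by
      ext k
      simp only [Set.mem_setOf_eq, Set.mem_univ, iff_true]
      split_ifs
      · exact hαβ
      · exact hαβ.symm
    rw [this, Set.ncard_univ, Nat.card_fin]
  · intro i j hij
    change {k | (if e i k then α else β) ≠ (if e j k then β else α)}.ncard ≤ t
    have hne : e i ≠ e j := fun h => hij.ne (e.injective h)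
    obtain ⟨k, hk⟩ := Function.ne_iff.1 hne
    have h1 : {k | (if e i k then α else β) ≠ (if e j k then β else α)} ⊂ Set.univ := by
      rw [Set.ssubset_univ_iff]
      intro h
      have h2 : k ∈ {k | (if e i k then α else β) ≠ (if e j k then β else α)} := by
        rw [h]
        trivial
      apply h2
      cases h3 : e i k <;> cases h4 : e j k
      · exact absurd (h3.trans h4.symm) hk
      · simp
      · simp
      · exact absurd (h3.trans h4.symm) hk
    have h2 := Set.ncard_lt_ncard h1
    rw [Set.ncard_univ, Nat.card_fin] at h2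
    omega

/-- **Main result.** For every `t ≥ 0` and every set `X` with at least two elements the largest
length of a skew `t`-family over `X` is `2 ^ (t + 1)`. -/
theorem result (t : ℕ) (X : Type*) [Nontrivial X] : IsGreatest (lengths t X) (2 ^ (t + 1)) := by
  refine ⟨lower t X, ?_⟩
  rintro m ⟨n, a, b, h⟩
  exact upper h

end Pool.Agent.Results.MP_41e757_co.SkewHamming
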